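import Pool.Agent.Lib.MP_ffa63f_al.Chain

/-!
Every infinite group is the product of a countable subset and a small subset.
-/

namespace Pool.Agent.Results.MP_ffa63f_al.CountableTimesSmall

open Set Pointwise Pool.Agent.Lib.MP_ffa63f_al

universe u

/-- `A` is large: finitely many left translates of `A` cover the group. -/
def IsLarge {G : Type u} [Group G] (A : Set G) : Prop :=
  ∃ F : Set G, F.Finite ∧ F * A = Set.univ

/-- `A` is small: removing `A` from a large set leaves a large set. -/
def IsSmall {G : Type u} [Group G] (A : Set G) : Prop :=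
  ∀ L : Set G, IsLarge L → IsLarge (L \ A)

variable {G : Type u} [Group G]

/-- Greedy choice of a Sidon sequence from infinite sets. -/
theorem exists_greedy (P : ℕ → Set G) (hP : ∀ n, (P n).Infinite) :
    ∃ s : ℕ → G, (∀ n, s n ∈ P n) ∧ ∀ n i j k, i < n → j < n → k < n →
      s n ≠ s i * (s j)⁻¹ * s k := by
  classical
  have hstep : ∀ (n : ℕ) (f : (m : ℕ) → m < n → G), ∃ z ∈ P n, ∀ i j k (hi : i < n) (hj : j < n)
      (hk : k < n), z ≠ f i hi * (f j hj)⁻¹ * f k hk := by
    intro n f
    let B : Finset G := ((Finset.univ : Finset (Fin n × Fin n × Fin n))).image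
      (fun p => f p.1 p.1.2 * (f p.2.1 p.2.1.2)⁻¹ * f p.2.2 p.2.2.2)
    obtain ⟨z, hz, hzB⟩ := (hP n).exists_notMem_finset B
    refine ⟨z, hz, fun i j k hi hj hk h => hzB ?_⟩
    exact Finset.mem_image.2 ⟨(⟨i, hi⟩, ⟨j, hj⟩, ⟨k, hk⟩), Finset.mem_univ _, h.symm⟩
  choose Φ hΦ1 hΦ2 using hstep
  let s : ℕ → G := WellFounded.fix (wellFounded_lt (α := ℕ)) Φ
  have hs : ∀ n, s n = Φ n (fun m _ => s m) := fun n => WellFounded.fix_eq _ _ _
  refine ⟨s, fun n => ?_, fun n i j k hi hj hk => ?_⟩
  · rw [hs n]; exact hΦ1 _ _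
  · rw [hs n]; exact hΦ2 n (fun m _ => s m) i j k hi hj hk

/-- The range of a greedy sequence contains no four distinct elements with `a b⁻¹ = c d⁻¹`. -/
theorem greedy_sidon {s : ℕ → G} (hs : ∀ n i j k, i < n → j < n → k < n →
      s n ≠ s i * (s j)⁻¹ * s k) {i j k l : ℕ} (h1 : s i ≠ s j) (h2 : s i ≠ s k)
      (h3 : s i ≠ s l) (h4 : s j ≠ s k) (h5 : s j ≠ s l) (h6 : s k ≠ s l) :
      s i * (s j)⁻¹ ≠ s k * (s l)⁻¹ := by
  intro h
  have n1 : i ≠ j := fun h => h1 (by rw [h])
  have n2 : i ≠ k := fun h => h2 (by rw [h])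
  have n3 : i ≠ l := fun h => h3 (by rw [h])
  have n4 : j ≠ k := fun h => h4 (by rw [h])
  have n5 : j ≠ l := fun h => h5 (by rw [h])
  have n6 : k ≠ l := fun h => h6 (by rw [h])
  have e1 : s i = s k * (s l)⁻¹ * s j := by rw [← h]; group
  have e2 : s j = s l * (s k)⁻¹ * s i := by rw [e1]; group
  have e3 : s k = s i * (s j)⁻¹ * s l := by rw [h]; group
  have e4 : s l = s j * (s i)⁻¹ * s k := by
    have : s i * (s j)⁻¹ = s k * (s l)⁻¹ := h
    rw [e2]; group
  rcases lt_or_gt_of_ne n1 with a1 | a1 <;> rcases lt_or_gt_of_ne n2 with a2 | a2 <;>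
  rcases lt_or_gt_of_ne n3 with a3 | a3 <;> rcases lt_or_gt_of_ne n4 with a4 | a4 <;>
  rcases lt_or_gt_of_ne n5 with a5 | a5 <;> rcases lt_or_gt_of_ne n6 with a6 | a6 <;>
  first
  | exact hs i k l j (by omega) (by omega) (by omega) e1
  | exact hs j l k i (by omega) (by omega) (by omega) e2
  | exact hs k i j l (by omega) (by omega) (by omega) e3
  | exact hs l j i k (by omega) (by omega) (by omega) e4

theorem isSmall_of {S : Set G} (h : ∀ F : Finset G, ∃ K : Finset G, ∀ g : G, ∃ k ∈ K,
    ∀ f ∈ F, f⁻¹ * k * g ∉ S) : IsSmall S := by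
  classical
  rintro L ⟨F, hF, hFL⟩
  obtain ⟨K, hK⟩ := h hF.toFinset
  refine ⟨(fun p : G × G => p.1⁻¹ * p.2) '' ((K : Set G) ×ˢ F),
    (K.finite_toSet.prod hF).image _, ?_⟩
  rw [Set.eq_univ_iff_forall]
  intro g
  obtain ⟨k, hk, hkF⟩ := hK g
  have hkg : k * g ∈ F * L := by rw [hFL]; exact Set.mem_univ _
  obtain ⟨f, hf, l, hl, hfl⟩ := Set.mem_mul.1 hkg
  refine Set.mem_mul.2 ⟨k⁻¹ * f, ⟨(k, f), ⟨hk, hf⟩, rfl⟩, l, ⟨hl, ?_⟩, ?_⟩
  · have : f⁻¹ * k * g = l := by rw [mul_assoc, ← hfl]; group
    rw [← this]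
    exact hkF f (hF.mem_toFinset.2 hf)
  · rw [mul_assoc, hfl]; group

theorem exists_small_of_subgroup [Infinite G] (C : Subgroup G) (hC : (C : Set G).Countable)
    (hCinf : (C : Set G).Infinite) : ∃ S : Set G, IsSmall S ∧ (C : Set G) * S = Set.univ := by
  classical
  obtain ⟨E, hE, hEc, hEg⟩ := exists_good (⊤ : Subgroup G)
    (by simpa using (Set.infinite_univ (α := G)))
  -- join with the right cosets of `C`
  let R : G → G → Prop := fun x y => E x y ∨ y * x⁻¹ ∈ C
  have hRc : ∀ x : G, {y | R x y}.Countable := by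
    intro x
    have h1 : {y | E x y}.Countable := by
      simpa using hEc x (Subgroup.mem_top x)
    have h2 : {y | y * x⁻¹ ∈ C}.Countable := by
      refine (hC.image (fun c => c * x)).mono ?_
      intro y hy
      exact ⟨y * x⁻¹, hy, by simp⟩
    exact h1.union h2
  have hcl : ∀ x : G, {y | Relation.ReflTransGen R x y}.Countable := fun x =>
    countable_reflTransGen (L := fun _ => True) (fun _ _ _ _ => trivial)
      (fun x _ => hRc x) x trivial
  have hRsymm : ∀ x y, R x y → R y x := by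
    rintro x y (h | h)
    · exact Or.inl (hE.symm h)
    · refine Or.inr ?_
      have := C.inv_mem h
      simpa using this
  let st : Setoid G :=
    { r := Relation.ReflTransGen R
      iseqv := ⟨fun _ => Relation.ReflTransGen.refl,
        fun {x y} h => Relation.ReflTransGen.mono (fun a b hab => hRsymm _ _ hab) _ _ h.swap,
        fun h h' => h.trans h'⟩ }
  -- enumeration of each class
  have henum : ∀ q : Quotient st, ∃ x : ℕ → G, ∀ g, Quotient.mk st g = q ↔ ∃ n, x n = g := by
    intro q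
    have hne : {g | Quotient.mk st g = q}.Nonempty := ⟨q.out, q.out_eq⟩
    have hcount : {g | Quotient.mk st g = q}.Countable := by
      refine (hcl q.out).mono ?_
      intro g hg
      have : Quotient.mk st q.out = Quotient.mk st g := by rw [q.out_eq]; exact hg.symm
      exact Quotient.exact this
    obtain ⟨x, hx⟩ := hcount.exists_eq_range hne
    refine ⟨x, fun g => ?_⟩
    have : g ∈ {g | Quotient.mk st g = q} ↔ g ∈ Set.range x := by rw [hx]
    exact this
  choose x hx using henum
  have hPinf : ∀ (q : Quotient st) (n : ℕ), ((fun c => c * x q n) '' (C : Set G)).Infinite := by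
    intro q n
    exact hCinf.image (fun a _ b _ h => mul_right_cancel h)
  choose s hs1 hs2 using fun q : Quotient st => exists_greedy _ (hPinf q)
  have hclass : ∀ q n, Quotient.mk st (s q n) = q := by
    intro q n
    obtain ⟨c, hc, hcs⟩ := hs1 q n
    have h1 : Quotient.mk st (x q n) = q := (hx q (x q n)).2 ⟨n, rfl⟩
    refine Eq.trans (Quotient.sound ?_) h1
    show Relation.ReflTransGen R (s q n) (x q n)
    refine Relation.ReflTransGen.single (Or.inr ?_)
    have : x q n * (s q n)⁻¹ = c⁻¹ := by rw [← hcs]; group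
    rw [this]; exact C.inv_mem hc
  refine ⟨⋃ q, Set.range (s q), ?_, ?_⟩
  · apply isSmall_of
    intro F
    obtain ⟨K, -, hK⟩ := hEg F (fun _ _ => Subgroup.mem_top _)
    refine ⟨K, fun g => hK _ (fun _ _ => Subgroup.mem_top _) ?_ g (Subgroup.mem_top g)⟩
    intro a ha b hb c hc d hd h1 h2 h3 h4 h5 h6 e1 e2 e3
    obtain ⟨q, i, rfl⟩ := Set.mem_iUnion.1 ha
    have hq : ∀ z ∈ ⋃ q, Set.range (s q), E (s q i) z → ∃ j, s q j = z := by
      intro z hz hez
      obtain ⟨q', j, rfl⟩ := Set.mem_iUnion.1 hz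
      have : q = q' := by
        rw [← hclass q i, ← hclass q' j]
        exact Quotient.sound (Relation.ReflTransGen.single (Or.inl hez))
      subst this
      exact ⟨j, rfl⟩
    obtain ⟨j, rfl⟩ := hq b hb e1
    obtain ⟨k, rfl⟩ := hq c hc e2
    obtain ⟨l, rfl⟩ := hq d hd e3
    exact greedy_sidon (hs2 q) h1 h2 h3 h4 h5 h6
  · rw [Set.eq_univ_iff_forall]
    intro g
    obtain ⟨n, hn⟩ := (hx (Quotient.mk st g) g).1 rfl
    obtain ⟨c, hc, hcs⟩ := hs1 (Quotient.mk st g) n
    refine Set.mem_mul.2 ⟨c⁻¹, C.inv_mem hc, s (Quotient.mk st g) n,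
      Set.mem_iUnion.2 ⟨_, n, rfl⟩, ?_⟩
    rw [← hcs]
    show c⁻¹ * (c * x (Quotient.mk st g) n) = g
    rw [hn]; group

/-- Every infinite group `G` has a countable subset `C` and a small subset `S` with `G = C S`;
moreover `C` may be prescribed to be any countably infinite subgroup of `G`. -/
theorem result (G : Type u) [Group G] [Infinite G] :
    (∃ C S : Set G, C.Countable ∧ IsSmall S ∧ C * S = Set.univ) ∧
      ∀ C : Subgroup G, (C : Set G).Countable → (C : Set G).Infinite →
        ∃ S : Set G, IsSmall S ∧ (C : Set G) * S = Set.univ := by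
  refine ⟨?_, fun C h1 h2 => exists_small_of_subgroup C h1 h2⟩
  let C : Subgroup G := Subgroup.closure (Set.range (Infinite.natEmbedding G))
  have hinf : (C : Set G).Infinite :=
    (Set.infinite_range_of_injective (Infinite.natEmbedding G).injective).mono
      Subgroup.subset_closure
  have hcount : (C : Set G).Countable := by
    rw [← Cardinal.le_aleph0_iff_set_countable]
    refine (mk_closure_le _).trans (max_le ?_ le_rfl)
    exact Cardinal.le_aleph0_iff_set_countable.2 (Set.countable_range _)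
  obtain ⟨S, hS, hCS⟩ := exists_small_of_subgroup C hcount hinf
  exact ⟨C, S, hcount, hS, hCS⟩

end Pool.Agent.Results.MP_ffa63f_al.CountableTimesSmall
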